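import Pool.Agent.Y482.Ph.Defs
import Pool.Agent.W303.AX.UX1

set_option autoImplicit false

/-!
# Expansion of the kernel of the ring (job 872, project PH)
-/

namespace Pool.Agent.Y710.PH

open Finset Filter Topology Metric
open Pool.Agent.W711.HT
open Pool.Agent.Y472
open Pool.Agent.W719.AX
open Pool.Agent.Y482.Ph

/-- the arguments of the kernel number `j` -/
def tri (n j : ℕ) (ψ : ℕ → ℂ) : ℂ × ℂ × ℂ := (ψ j, ψ ((j + 1) % n), ψ n)

/-- the coefficients of the product of the first `m` kernels -/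
noncomputable def Am (A : ℕ → ℂ × ℂ × ℂ → ℂ) (n : ℕ) : ℕ → ℕ → (ℕ → ℂ) → ℂ
  | 0 => fun k _ => if k = 0 then 1 else 0
  | m + 1 => cv (Am A n m) (fun k ψ => A k (tri n m ψ))

theorem ux_one (S : Set (ℕ → ℂ)) :
    UX (fun (_ : ℕ) (_ : ℕ → ℂ) => (1 : ℂ)) (fun k _ => if k = 0 then 1 else 0) S := by
  intro K
  refine ⟨1, Eventually.of_forall fun N p _ => ?_⟩
  rcases K with _ | K
  · simp
  · rw [Finset.sum_range_succ']
    simp only [Nat.add_eq_zero_iff, one_ne_zero, and_false, if_false, zero_div, sum_const_zero, zero_add,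
      if_true, pow_zero, div_one, sub_self, norm_zero]
    positivity

theorem ux_comp {E F : Type} {Y : ℕ → F → ℂ} {A : ℕ → F → ℂ} {T : Set F} (h : UX Y A T) {S : Set E}
    (g : E → F) (hg : ∀ p ∈ S, g p ∈ T) : UX (fun N p => Y N (g p)) (fun k p => A k (g p)) S := by
  intro K
  obtain ⟨C, hC⟩ := h K
  refine ⟨C, ?_⟩
  filter_upwards [hC] with N hN p hp
  exact hN (g p) (hg p hp)

theorem Rc_mono {r ρ : ℝ} (h : r ≤ ρ) : Rc r r ⊆ Rc ρ ρ :=
  fun _ hz => ⟨lt_of_lt_of_le hz.1 h, lt_of_lt_of_le hz.2 h⟩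

theorem mod_lt' {n j : ℕ} (hn : 2 ≤ n) : (j + 1) % n < n := Nat.mod_lt _ (by omega)

theorem mod_ne {n j : ℕ} (hn : 2 ≤ n) (hj : j < n) : (j + 1) % n ≠ j := by
  rcases Nat.lt_or_ge (j + 1) n with h | h
  · rw [Nat.mod_eq_of_lt h]; omega
  · have : j + 1 = n := by omega
    rw [this, Nat.mod_self]; omega

theorem tri_mem {n j : ℕ} {r ρ : ℝ} (hn : 2 ≤ n) (hj : j < n) (hr : r ≤ ρ) {ψ : ℕ → ℂ}
    (hψ : ψ ∈ Bx (n + 1) r) : tri n j ψ ∈ Rc ρ ρ ×ˢ Rc ρ ρ ×ˢ Rc ρ ρ := by
  have h1 := mod_lt' (j := j) hn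
  exact ⟨Rc_mono hr (hψ j (by omega)), Rc_mono hr (hψ _ (by omega)), Rc_mono hr (hψ n (by omega))⟩

theorem wx : S_WX := by
  intro ρ₀ c C s dl hSD ρ₂ A hρ₂ hK n hn r hr hrρ
  obtain ⟨c₁, hc₁, hnz⟩ := hK.nz
  -- the partial products
  have hux : ∀ m ≤ n, UX (fun N ψ => ∏ j ∈ range m, kx3 s N (tri n j ψ)) (Am A n m) (Bx (n + 1) r) := by
    intro m
    induction m with
    | zero =>
      intro _
      simp only [range_zero, prod_empty]
      exact ux_one _
    | succ m ih =>
      intro hm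
      have h1 := ih (by omega)
      have h2 := ux_comp hK.ux (S := Bx (n + 1) r) (tri n m) (fun p hp => tri_mem hn (by omega) hrρ hp)
      have h3 := Pool.Agent.W303.AX.uxmul _ _ _ _ _ _ h1 h2
      simp only [prod_range_succ]
      exact h3
  have hlow : ∀ m ≤ n, ∀ ψ ∈ Bx (n + 1) r, c₁ ^ m ≤ ‖Am A n m 0 ψ‖ := by
    intro m
    induction m with
    | zero =>
      intro _ ψ _
      simp [Am]
    | succ m ih =>
      intro hm ψ hψ
      have h1 := ih (by omega) ψ hψ
      have h2 := hnz _ (tri_mem hn (by omega : m < n) hrρ hψ)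
      have e : Am A n (m + 1) 0 ψ = Am A n m 0 ψ * A 0 (tri n m ψ) := by
        show cv (Am A n m) (fun k ψ => A k (tri n m ψ)) 0 ψ = _
        unfold cv
        simp
      rw [e, norm_mul, pow_succ]
      exact mul_le_mul h1 h2 hc₁.le (norm_nonneg _)
  have hfac : ∀ j < n, ∀ k, ∀ ψ ∈ Bx (n + 1) r, ∀ i < n + 1,
      DifferentiableOn ℂ (fun w => A k (tri n j (Function.update ψ i w))) (Rc r r) := by
    intro j hj k ψ hψ i hi
    have hm1 := mod_lt' (j := j) hn
    have hm2 := mod_ne hn hj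
    have b1 := Rc_mono hrρ (hψ j (by omega))
    have b2 := Rc_mono hrρ (hψ _ (by omega : (j + 1) % n < n + 1))
    have b3 := Rc_mono hrρ (hψ n (by omega))
    by_cases h1 : i = j
    · subst h1
      have e : ∀ w, tri n i (Function.update ψ i w) = (w, ψ ((i + 1) % n), ψ n) := by
        intro w
        unfold tri
        rw [Function.update_self, Function.update_of_ne hm2, Function.update_of_ne (by omega)]
      simp only [e]
      exact (hK.d1 k _ b2 _ b3).mono (Rc_mono hrρ)
    by_cases h2 : i = (j + 1) % n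
    · have e : ∀ w, tri n j (Function.update ψ i w) = (ψ j, w, ψ n) := by
        intro w
        unfold tri
        rw [← h2, Function.update_self, Function.update_of_ne (Ne.symm h1), Function.update_of_ne (by omega)]
      simp only [e]
      exact (hK.d2 k _ b1 _ b3).mono (Rc_mono hrρ)
    by_cases h3 : i = n
    · have e : ∀ w, tri n j (Function.update ψ i w) = (ψ j, ψ ((j + 1) % n), w) := by
        intro w
        unfold tri
        rw [Function.update_of_ne (Ne.symm h1), Function.update_of_ne (Ne.symm h2), ← h3, Function.update_self]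
      simp only [e]
      exact (hK.d3 k _ b1 _ b2).mono (Rc_mono hrρ)
    · have e : ∀ w, tri n j (Function.update ψ i w) = tri n j ψ := by
        intro w
        unfold tri
        rw [Function.update_of_ne (Ne.symm h1), Function.update_of_ne (Ne.symm h2),
          Function.update_of_ne (Ne.symm h3)]
      simp only [e]
      exact differentiableOn_const _
  have hdiff : ∀ m ≤ n, ∀ k, ∀ ψ ∈ Bx (n + 1) r, ∀ i < n + 1,
      DifferentiableOn ℂ (fun w => Am A n m k (Function.update ψ i w)) (Rc r r) := by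
    intro m
    induction m with
    | zero =>
      intro _ k ψ _ i _
      exact differentiableOn_const _
    | succ m ih =>
      intro hm k ψ hψ i hi
      have e : (fun w => Am A n (m + 1) k (Function.update ψ i w)) = fun w =>
          ∑ l ∈ range (k + 1), Am A n m l (Function.update ψ i w) * A (k - l) (tri n m (Function.update ψ i w)) := by
        funext w
        rfl
      rw [e]
      refine DifferentiableOn.fun_sum fun l _ => ?_
      exact (ih (by omega) l ψ hψ i hi).mul (hfac m (by omega) (k - l) ψ hψ i hi)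
  refine ⟨Am A n n, c₁ ^ n, pow_pos hc₁ n, ?_, hlow n le_rfl, hdiff n le_rfl⟩
  have e : (fun (N : ℕ) (ψ : ℕ → ℂ) => Complex.exp (-(N * Sr s n ψ)) *
      ((Real.sqrt N : ℂ) ^ n * Wk n N (ψ n) ψ)) =
      fun (N : ℕ) (ψ : ℕ → ℂ) => ∏ j ∈ range n, kx3 s N (tri n j ψ) := by
    funext N ψ
    unfold kx3 tri Wk Sr
    rw [prod_mul_distrib, prod_mul_distrib, prod_const, card_range, ← Complex.exp_sum, mul_sum, ← sum_neg_distrib]
    ring
  rw [e]
  exact hux n le_rfl

end Pool.Agent.Y710.PH
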